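import Mathlib
import Pool.Agent.N292.LC.Basic
import Pool.Agent.N292.LC.Ric

/-!
# `log S_{n,c}` is convex on `I_c`, for all admissible `n`, `c`
-/

namespace Pool.Agent.Results.MP_6ebaa4_an.LogConvexity

open Set Real Pool.Agent.N292.LC

/-- Admissible parameters: `n > 0`, and `-n/c` is a positive integer when `c < 0`. -/
def Admissible (n c : ℝ) : Prop := 0 < n ∧ (c < 0 → ∃ k : ℕ, 0 < k ∧ -n / c = (k : ℝ))

/-- The interval `I_c`: `[0,∞)` for `c ≥ 0`, `[0,-1/c]` for `c < 0`. -/
noncomputable def Ic (c : ℝ) : Set ℝ := if 0 ≤ c then Set.Ici 0 else Set.Icc 0 (-1 / c)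

/-- The function `S_{n,c}`:
`(1/π) ∫_0^π (1 + 4c x(1+cx) sin²(φ/2))^(-n/c) dφ` for `c ≠ 0`, and
`(1/π) ∫_0^π exp(-4 n x sin²(φ/2)) dφ` for `c = 0`. -/
noncomputable def S (n c x : ℝ) : ℝ :=
  if c = 0 then
    (1 / π) * ∫ φ in (0 : ℝ)..π, Real.exp (-4 * n * x * Real.sin (φ / 2) ^ 2)
  else
    (1 / π) * ∫ φ in (0 : ℝ)..π,
      (1 + 4 * c * (x * (1 + c * x)) * Real.sin (φ / 2) ^ 2) ^ (-n / c)

lemma S_eq (n c x : ℝ) : S n c x = (1 / π) * G n c (x * (1 + c * x)) := by
  unfold S G w sg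
  by_cases hc : c = 0
  · subst hc
    simp only [if_true]
    congr 1
    apply intervalIntegral.integral_congr
    intro φ _
    show Real.exp _ = Real.exp _
    congr 1
    ring
  · simp only [if_neg hc]
    congr 1
    apply intervalIntegral.integral_congr
    intro φ _
    show (_ : ℝ) ^ (_ : ℝ) = (_ : ℝ) ^ (_ : ℝ)
    congr 1
    · ring
    · ring

lemma hasDerivAt_X (c x : ℝ) : HasDerivAt (fun x : ℝ => x * (1 + c * x)) (1 + 2 * c * x) x := by
  have h1 : HasDerivAt (fun x : ℝ => 1 + c * x) (c * 1) x :=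
    ((hasDerivAt_id x).const_mul c).const_add 1
  have h2 := (hasDerivAt_id x).mul h1
  have h3 : HasDerivAt (fun x : ℝ => x * (1 + c * x)) (1 * (1 + c * x) + x * (c * 1)) x := h2
  convert h3 using 1
  ring

lemma q_eq (c x : ℝ) : 1 + 4 * c * (x * (1 + c * x)) = (1 + 2 * c * x) ^ 2 := by ring

lemma hasDerivAt_log_S {n c x : ℝ} (h : 0 < 1 + 2 * c * x) :
    HasDerivAt (fun x => Real.log (S n c x))
      (-4 * n * ((1 + 2 * c * x) * mm n c (x * (1 + c * x)))) x := by
  have hq : 0 < 1 + 4 * c * (x * (1 + c * x)) := by rw [q_eq]; positivity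
  have hG := G_pos (n := n) hq
  have h1 := (hasDerivAt_G (n := n) hq).comp x (hasDerivAt_X c x)
  have h2 : HasDerivAt (fun x => (1 / π) * G n c (x * (1 + c * x)))
    ((1 / π) * (-4 * n * N n c (x * (1 + c * x)) * (1 + 2 * c * x))) x := h1.const_mul (1 / π)
  have hpi := Real.pi_pos
  have h3 := h2.log (by positivity)
  have e : (fun x => Real.log (S n c x)) =
      fun x => Real.log ((1 / π) * G n c (x * (1 + c * x))) := by
    funext y; rw [S_eq]
  rw [e]
  convert h3 using 1
  unfold mm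
  field_simp

lemma hasDerivAt_y {n c x : ℝ} (h : 0 < 1 + 2 * c * x) :
    HasDerivAt (fun x => -4 * n * ((1 + 2 * c * x) * mm n c (x * (1 + c * x))))
      (-4 * n * (2 * c * mm n c (x * (1 + c * x)) +
        (1 + 4 * c * (x * (1 + c * x))) * dm n c (x * (1 + c * x)))) x := by
  have hq : 0 < 1 + 4 * c * (x * (1 + c * x)) := by rw [q_eq]; positivity
  have h1 := (hasDerivAt_mm (n := n) hq).comp x (hasDerivAt_X c x)
  have h2 : HasDerivAt (fun x : ℝ => 1 + 2 * c * x) (2 * c * 1) x :=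
    ((hasDerivAt_id x).const_mul (2 * c)).const_add 1
  have h3 : HasDerivAt (fun x => -4 * n * ((1 + 2 * c * x) * mm n c (x * (1 + c * x))))
      (-4 * n * ((2 * c * 1) * mm n c (x * (1 + c * x)) +
        (1 + 2 * c * x) * (dm n c (x * (1 + c * x)) * (1 + 2 * c * x)))) x :=
    (h2.mul h1).const_mul (-4 * n)
  convert h3 using 1
  ring

/-- Convexity on a convex set on which `log S` is continuous and in whose interior `x > 0` and
`1 + 2cx > 0`. -/
lemma convexOn_of {n c : ℝ} {D : Set ℝ} (hD : Convex ℝ D) (hn : 0 < n) (hnc : 0 ≤ n + c)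
    (hcont : ContinuousOn (fun x => Real.log (S n c x)) D)
    (hpos : ∀ x ∈ interior D, 0 < x ∧ 0 < x * (1 + c * x) ∧ 0 < 1 + 2 * c * x) :
    ConvexOn ℝ D (fun x => Real.log (S n c x)) := by
  apply convexOn_of_hasDerivWithinAt2_nonneg hD hcont
    (f' := fun x => -4 * n * ((1 + 2 * c * x) * mm n c (x * (1 + c * x))))
    (f'' := fun x => -4 * n * (2 * c * mm n c (x * (1 + c * x)) +
        (1 + 4 * c * (x * (1 + c * x))) * dm n c (x * (1 + c * x))))
  · intro x hx
    exact (hasDerivAt_log_S (hpos x hx).2.2).hasDerivWithinAt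
  · intro x hx
    exact (hasDerivAt_y (hpos x hx).2.2).hasDerivWithinAt
  · intro x hx
    obtain ⟨h0, h1, h2⟩ := hpos x hx
    have hq : 0 < 1 + 4 * c * (x * (1 + c * x)) := by rw [q_eq]; positivity
    have h3 := main_ineq hn hnc h1 hq
    show 0 ≤ -4 * n * (2 * c * mm n c (x * (1 + c * x)) +
        (1 + 4 * c * (x * (1 + c * x))) * dm n c (x * (1 + c * x)))
    nlinarith

/-- The case `c ≥ 0`. -/
lemma case_nonneg {n c : ℝ} (hn : 0 < n) (hc : 0 ≤ c) :
    (∀ x ∈ Ici (0 : ℝ), 0 < S n c x) ∧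
      ConvexOn ℝ (Ici (0 : ℝ)) (fun x => Real.log (S n c x)) := by
  have hp : ∀ x ∈ Ici (0 : ℝ), 0 < 1 + 2 * c * x := by
    intro x hx
    have : (0 : ℝ) ≤ x := hx
    positivity
  constructor
  · intro x hx
    have h2 := hp x hx
    have hq : 0 < 1 + 4 * c * (x * (1 + c * x)) := by rw [q_eq]; positivity
    rw [S_eq]
    have := G_pos (n := n) hq
    have := Real.pi_pos
    positivity
  · apply convexOn_of (convex_Ici 0) hn (by linarith)
    · intro x hx
      exact (hasDerivAt_log_S (hp x hx)).continuousAt.continuousWithinAt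
    · intro x hx
      rw [interior_Ici] at hx
      have h0 : (0 : ℝ) < x := hx
      exact ⟨h0, by positivity, by positivity⟩

lemma G_nat {n c : ℝ} {k : ℕ} (hc : c < 0) (hk : -n / c = (k : ℝ)) (X : ℝ) :
    G n c X = ∫ φ in (0 : ℝ)..π, (1 + 4 * c * (X * sg φ)) ^ k := by
  unfold G w
  apply intervalIntegral.integral_congr
  intro φ _
  show (if c = 0 then _ else _) = _
  rw [if_neg hc.ne, show -(n / c) = (k : ℝ) by rw [← hk]; ring, Real.rpow_natCast]

lemma continuous_G_nat {c : ℝ} {k : ℕ} :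
    Continuous (fun X : ℝ => ∫ φ in (0 : ℝ)..π, (1 + 4 * c * (X * sg φ)) ^ k) := by
  apply intervalIntegral.continuous_parametric_intervalIntegral_of_continuous' (f := fun X φ =>
    (1 + 4 * c * (X * sg φ)) ^ k)
  unfold sg
  fun_prop

lemma S_pos_neg {n c x : ℝ} {k : ℕ} (hc : c < 0) (hk : -n / c = (k : ℝ)) : 0 < S n c x := by
  rw [S_eq, G_nat hc hk]
  have hpi := Real.pi_pos
  apply mul_pos (by positivity)
  apply intervalIntegral.intervalIntegral_pos_of_pos_on
  · apply Continuous.intervalIntegrable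
    unfold sg
    fun_prop
  · intro φ hφ
    have h1 : sg φ < 1 := by
      unfold sg
      have h2 := Real.sin_sq_add_cos_sq (φ / 2)
      have h3 : 0 < Real.cos (φ / 2) := Real.cos_pos_of_mem_Ioo
        ⟨by linarith [hφ.1], by linarith [hφ.2]⟩
      nlinarith
    have h0 := sg_nonneg φ
    have h4 : 0 ≤ 1 + 4 * c * (x * (1 + c * x)) := by rw [q_eq]; positivity
    have e : 1 + 4 * c * (x * (1 + c * x) * sg φ) =
        (1 - sg φ) + sg φ * (1 + 4 * c * (x * (1 + c * x))) := by ring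
    have h5 : 0 < 1 + 4 * c * (x * (1 + c * x) * sg φ) := by
      rw [e]
      have := mul_nonneg h0 h4
      linarith
    positivity
  · exact hpi

lemma S_symm {n c x : ℝ} (hc : c < 0) : S n c (-1 / c - x) = S n c x := by
  have hc' : c ≠ 0 := hc.ne
  rw [S_eq, S_eq]
  congr 2
  field_simp
  ring

/-- The case `c < 0`. -/
lemma case_neg {n c : ℝ} (hn : 0 < n) (hc : c < 0) {k : ℕ} (hk0 : 0 < k)
    (hk : -n / c = (k : ℝ)) :
    ConvexOn ℝ (Icc 0 (-1 / c)) (fun x => Real.log (S n c x)) := by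
  have hk1 : (1 : ℝ) ≤ (k : ℝ) := by exact_mod_cast hk0
  have hc' : c ≠ 0 := hc.ne
  have hnc : 0 ≤ n + c := by
    have h1 : -n = k * c := by rw [← hk]; field_simp
    nlinarith
  set a : ℝ := -1 / c with ha
  have hca : c * a = -1 := by rw [ha]; field_simp
  have ha0 : 0 < a := by rw [ha]; exact div_pos_of_neg_of_neg (by norm_num) hc
  -- continuity
  have hcS : Continuous (S n c) := by
    have e : S n c = fun x => (1 / π) *
        (fun X : ℝ => ∫ φ in (0 : ℝ)..π, (1 + 4 * c * (X * sg φ)) ^ k) (x * (1 + c * x)) := by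
      funext x
      rw [S_eq, G_nat hc hk]
    rw [e]
    apply continuous_const.mul
    apply continuous_G_nat.comp
    fun_prop
  have hcL : Continuous (fun x => Real.log (S n c x)) :=
    hcS.log (fun x => (S_pos_neg hc hk).ne')
  -- the left half
  have hint : ∀ x ∈ interior (Icc (0 : ℝ) (a / 2)),
      0 < x ∧ 0 < x * (1 + c * x) ∧ 0 < 1 + 2 * c * x := by
    intro x hx
    rw [interior_Icc] at hx
    have h1 : c * (a / 2) < c * x := mul_lt_mul_of_neg_left hx.2 hc
    have h2 : 0 < 1 + 2 * c * x := by nlinarith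
    have h3 : 0 < 1 + c * x := by nlinarith
    exact ⟨hx.1, mul_pos hx.1 h3, h2⟩
  have hconv : ConvexOn ℝ (Icc (0 : ℝ) (a / 2)) (fun x => Real.log (S n c x)) :=
    convexOn_of (convex_Icc _ _) hn hnc hcL.continuousOn hint
  have hanti : AntitoneOn (fun x => Real.log (S n c x)) (Icc (0 : ℝ) (a / 2)) := by
    apply antitoneOn_of_deriv_nonpos (convex_Icc _ _) hcL.continuousOn
    · intro x hx
      exact (hasDerivAt_log_S (hint x hx).2.2).differentiableAt.differentiableWithinAt
    · intro x hx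
      obtain ⟨h0, h1, h2⟩ := hint x hx
      rw [(hasDerivAt_log_S h2).deriv]
      have hq : 0 < 1 + 4 * c * (x * (1 + c * x)) := by rw [q_eq]; positivity
      have h3 := mm_pos (n := n) hq
      have h4 : 0 < n * ((1 + 2 * c * x) * mm n c (x * (1 + c * x))) := by positivity
      linarith
  -- folding
  have hfold : ∀ x, Real.log (S n c x) = Real.log (S n c (a / 2 - |x - a / 2|)) := by
    intro x
    rcases le_total x (a / 2) with h | h
    · rw [abs_of_nonpos (by linarith)]
      congr 2; ring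
    · rw [abs_of_nonneg (by linarith), ← S_symm hc, ← ha]
      congr 2; ring
  have hmem : ∀ x ∈ Icc (0 : ℝ) a, a / 2 - |x - a / 2| ∈ Icc (0 : ℝ) (a / 2) := by
    intro x hx
    have h1 : |x - a / 2| ≤ a / 2 := by
      rw [abs_le]; constructor <;> linarith [hx.1, hx.2]
    constructor
    · linarith
    · linarith [abs_nonneg (x - a / 2)]
  refine ⟨convex_Icc _ _, ?_⟩
  intro x hx y hy α β hα hβ hαβ
  have hz : α • x + β • y ∈ Icc (0 : ℝ) a := (convex_Icc 0 a) hx hy hα hβ hαβ
  have hx' := hmem x hx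
  have hy' := hmem y hy
  have hz' := hmem _ hz
  have hw' : α • (a / 2 - |x - a / 2|) + β • (a / 2 - |y - a / 2|) ∈ Icc (0 : ℝ) (a / 2) :=
    (convex_Icc 0 (a / 2)) hx' hy' hα hβ hαβ
  have hle : α • (a / 2 - |x - a / 2|) + β • (a / 2 - |y - a / 2|) ≤
      a / 2 - |(α • x + β • y) - a / 2| := by
    simp only [smul_eq_mul]
    have e : α * x + β * y - a / 2 = α * (x - a / 2) + β * (y - a / 2) := by
      linear_combination (a / 2) * hαβ
    have h1 : |α * x + β * y - a / 2| ≤ α * |x - a / 2| + β * |y - a / 2| := by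
      rw [e]
      refine (abs_add_le _ _).trans ?_
      rw [abs_mul, abs_mul, abs_of_nonneg hα, abs_of_nonneg hβ]
    have h2 : α * (a / 2 - |x - a / 2|) + β * (a / 2 - |y - a / 2|) =
        (α + β) * (a / 2) - (α * |x - a / 2| + β * |y - a / 2|) := by ring
    rw [h2, hαβ]
    linarith
  have h1 := hanti hw' hz' hle
  have h2 := hconv.2 hx' hy' hα hβ hαβ
  show Real.log (S n c (α • x + β • y)) ≤ α • Real.log (S n c x) + β • Real.log (S n c y)
  rw [hfold (α • x + β • y), hfold x, hfold y]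
  exact le_trans h1 h2

/-- For all admissible `n`, `c`, the function `S_{n,c}` is positive on `I_c` and `log S_{n,c}` is
convex on `I_c`. -/
theorem result : ∀ n c : ℝ, Admissible n c →
    (∀ x ∈ Ic c, 0 < S n c x) ∧ ConvexOn ℝ (Ic c) (fun x => Real.log (S n c x)) := by
  intro n c h
  unfold Ic
  split_ifs with hc
  · exact case_nonneg h.1 hc
  · push Not at hc
    obtain ⟨k, hk0, hk⟩ := h.2 hc
    exact ⟨fun x _ => S_pos_neg hc hk, case_neg h.1 hc hk0 hk⟩

end Pool.Agent.Results.MP_6ebaa4_an.LogConvexity
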